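/-
Blocks of handles in an abstract group with the relations of the standard generators: two blocks
commute, the block of two handles is a chain of five, the block of three handles is a perfect tree
group.
-/
import Pool.Agent.H.MP_59b15d_al.h95p.Perf
import Pool.Agent.H.MP_59b15d_al.h52e.DegY

set_option autoImplicit false

namespace Pool.MP_59b15d_al.H98P

universe u v w

open Module Pool.MP_59b15d_al.H95E Pool.MP_59b15d_al.H93E Pool.MP_59b15d_al.H47E
  Pool.MP_59b15d_al.H11D Pool.MP_59b15d_al.H95P Pool.Agent.H.MP_59b15d_al.Lin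
  Pool.Agent.H.MP_59b15d_al.H52E
open scoped commutatorElement

section blocks

variable {Γ : Type w} [Group Γ]

/-- The twists of the handles `i`, `lo ≤ i < hi`. -/
def gs (A B C : ℕ → Γ) (lo hi : ℕ) : Set Γ :=
  {x | (∃ i, lo ≤ i ∧ i < hi ∧ x = A i) ∨ (∃ i, lo ≤ i ∧ i < hi ∧ x = B i) ∨
    ∃ i, lo ≤ i ∧ i + 1 < hi ∧ x = C i}

/-- The block of the handles `i`, `lo ≤ i < hi`. -/
def Bk (A B C : ℕ → Γ) (lo hi : ℕ) : Subgroup Γ := Subgroup.closure (gs A B C lo hi)

variable {A B C S : ℕ → Γ} {g lo hi lo' hi' i : ℕ}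

theorem A_mem (h1 : lo ≤ i) (h2 : i < hi) : A i ∈ Bk A B C lo hi :=
  Subgroup.subset_closure (Or.inl ⟨i, h1, h2, rfl⟩)

theorem B_mem (h1 : lo ≤ i) (h2 : i < hi) : B i ∈ Bk A B C lo hi :=
  Subgroup.subset_closure (Or.inr (Or.inl ⟨i, h1, h2, rfl⟩))

theorem C_mem (h1 : lo ≤ i) (h2 : i + 1 < hi) : C i ∈ Bk A B C lo hi :=
  Subgroup.subset_closure (Or.inr (Or.inr ⟨i, h1, h2, rfl⟩))

theorem S_mem (L : Lk g A B C S) (h1 : lo ≤ i) (h2 : i + 1 < hi) (hg : i + 1 < g) :
    S i ∈ Bk A B C lo hi := by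
  have a0 : A i ∈ Bk A B C lo hi := A_mem h1 (by omega)
  have b0 : B i ∈ Bk A B C lo hi := B_mem h1 (by omega)
  have a1 : A (i + 1) ∈ Bk A B C lo hi := A_mem (by omega) h2
  have b1 : B (i + 1) ∈ Bk A B C lo hi := B_mem (by omega) h2
  have c0 : C i ∈ Bk A B C lo hi := C_mem h1 h2
  have e1 := (eq_mul_inv_of_mul_eq (L.gar i hg).symm)
  rw [e1]
  refine mul_mem (mul_mem (mul_mem (mul_mem (mul_mem (mul_mem b0 a0) (mul_mem c0 b0))
    (mul_mem b1 c0)) (mul_mem a1 b1)) (mul_mem a1 (mul_mem (mul_mem (mul_mem (mul_mem (mul_mem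
    c0 b0) a0) c0) b0) c0))) (inv_mem (mul_mem (pow_mem (mul_mem a0 b0) 3)
    (pow_mem (mul_mem a1 b1) 3)))

theorem closure_comm {s t : Set Γ} (h : ∀ x ∈ s, ∀ y ∈ t, Commute x y) :
    ∀ x ∈ Subgroup.closure s, ∀ y ∈ Subgroup.closure t, Commute x y := by
  intro x hx y hy
  have h1 : Subgroup.closure s ≤ Subgroup.centralizer t :=
    (Subgroup.closure_le _).2 fun z hz => Subgroup.mem_centralizer_iff.2 fun u hu =>
      (h z hz u hu).symm.eq
  have h2 : Subgroup.closure t ≤ Subgroup.centralizer (Subgroup.closure s : Set Γ) :=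
    (Subgroup.closure_le _).2 fun u hu => Subgroup.mem_centralizer_iff.2 fun z hz =>
      (Subgroup.mem_centralizer_iff.1 (h1 hz) u hu).symm
  exact Subgroup.mem_centralizer_iff.1 (h2 hy) x hx

/-- Disjoint blocks commute. -/
theorem Bk_comm (L : Lk g A B C S) (h : hi ≤ lo') {x y : Γ} (hx : x ∈ Bk A B C lo hi)
    (hy : y ∈ Bk A B C lo' hi') : Commute x y := by
  refine closure_comm ?_ x hx y hy
  rintro _ (⟨i, i1, i2, rfl⟩ | ⟨i, i1, i2, rfl⟩ | ⟨i, i1, i2, rfl⟩) _
    (⟨j, j1, j2, rfl⟩ | ⟨j, j1, j2, rfl⟩ | ⟨j, j1, j2, rfl⟩)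
  · exact L.AA i j
  · exact L.AB i j (by omega)
  · exact L.AC i j
  · exact (L.AB j i (by omega)).symm
  · exact L.BB i j
  · exact L.BC i j (by omega) (by omega)
  · exact (L.AC j i).symm
  · exact (L.BC j i (by omega) (by omega)).symm
  · exact L.CC i j

end blocks

/-! ### Two handles -/

section two

variable {Γ : Type w} [Group Γ] {A B C S : ℕ → Γ} {g lo : ℕ}

/-- The chain of the block of two handles. -/
def ch (A B C : ℕ → Γ) (lo : ℕ) : Fin 5 → Bk A B C lo (lo + 2) :=
  ![⟨A lo, A_mem le_rfl (by omega)⟩, ⟨B lo, B_mem le_rfl (by omega)⟩,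
    ⟨C lo, C_mem le_rfl (by omega)⟩, ⟨B (lo + 1), B_mem (by omega) (by omega)⟩,
    ⟨A (lo + 1), A_mem (by omega) (by omega)⟩]

theorem ch_val (i : Fin 5) : (ch A B C lo i : Γ) =
    (![A lo, B lo, C lo, B (lo + 1), A (lo + 1)] : Fin 5 → Γ) i := by
  fin_cases i <;> rfl

theorem gr_ch (L : Lk g A B C S) (hm : lo + 2 ≤ g) : Gr c5 (ch A B C lo) := by
  constructor
  · intro i j hij
    apply Subtype.ext
    rw [Subgroup.coe_mul, Subgroup.coe_mul, Subgroup.coe_mul, Subgroup.coe_mul, ch_val, ch_val]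
    fin_cases i <;> fin_cases j <;> first
      | exact absurd hij (by decide)
      | exact L.brA lo
      | exact (L.brA lo).symm
      | exact L.brA (lo + 1)
      | exact (L.brA (lo + 1)).symm
      | exact L.brC lo (by omega)
      | exact (L.brC lo (by omega)).symm
      | exact L.brC' lo (by omega)
      | exact (L.brC' lo (by omega)).symm
  · intro i j hij hn
    apply Subtype.ext
    rw [Subgroup.coe_mul, Subgroup.coe_mul, ch_val, ch_val]
    fin_cases i <;> fin_cases j <;> first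
      | exact absurd rfl hij
      | exact absurd (by decide) hn
      | exact L.AC lo lo
      | exact (L.AC lo lo).symm
      | exact L.AC (lo + 1) lo
      | exact (L.AC (lo + 1) lo).symm
      | exact L.AB lo (lo + 1) (by omega)
      | exact (L.AB lo (lo + 1) (by omega)).symm
      | exact L.AB (lo + 1) lo (by omega)
      | exact (L.AB (lo + 1) lo (by omega)).symm
      | exact L.AA lo (lo + 1)
      | exact L.AA (lo + 1) lo
      | exact L.BB lo (lo + 1)
      | exact L.BB (lo + 1) lo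

theorem gen_ch : Subgroup.closure (Set.range (ch A B C lo)) = ⊤ := by
  apply closure_eq_top_of_val
  change _ = Subgroup.closure (gs A B C lo _)
  congr 1
  ext T
  constructor
  · rintro ⟨i, rfl⟩
    change (ch A B C lo i : Γ) ∈ _
    rw [ch_val]
    fin_cases i
    · exact Or.inl ⟨lo, by omega, by omega, rfl⟩
    · exact Or.inr (Or.inl ⟨lo, by omega, by omega, rfl⟩)
    · exact Or.inr (Or.inr ⟨lo, by omega, by omega, rfl⟩)
    · exact Or.inr (Or.inl ⟨lo + 1, by omega, by omega, rfl⟩)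
    · exact Or.inl ⟨lo + 1, by omega, by omega, rfl⟩
  · rintro (⟨k, h1, hk, rfl⟩ | ⟨k, h1, hk, rfl⟩ | ⟨k, h1, hk, rfl⟩)
    · rcases (by omega : k = lo ∨ k = lo + 1) with rfl | rfl
      · exact ⟨0, rfl⟩
      · exact ⟨4, rfl⟩
    · rcases (by omega : k = lo ∨ k = lo + 1) with rfl | rfl
      · exact ⟨1, rfl⟩
      · exact ⟨3, rfl⟩
    · obtain rfl : k = lo := by omega
      exact ⟨2, rfl⟩

/-- The quotient of the twists of two adjacent handles is a product of commutators. -/
theorem quot_mem (L : Lk g A B C S) (hm : lo + 2 ≤ g) : (A (lo + 1))⁻¹ * A lo ∈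
    ⁅Bk A B C lo (lo + 2), Bk A B C lo (lo + 2)⁆ := by
  have hG := gr_ch L hm
  let σ : Bk A B C lo (lo + 2) →* Abelianization (Bk A B C lo (lo + 2)) := Abelianization.of
  have h01 := braid_ab σ (hG.braid 0 1 (by decide))
  have h12 := braid_ab σ (hG.braid 1 2 (by decide))
  have h23 := braid_ab σ (hG.braid 2 3 (by decide))
  have h34 := braid_ab σ (hG.braid 3 4 (by decide))
  have h1 : σ ((ch A B C lo 4)⁻¹ * ch A B C lo 0) = 1 := by
    rw [map_mul, map_inv, h01, h12, h23, h34, inv_mul_cancel]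
  have h2 := (QuotientGroup.eq_one_iff _).1 h1
  rw [← map_comm_sub]
  exact ⟨_, h2, rfl⟩

end two

/-! ### Three handles -/

section tree

variable {H : Type w} [Group H] {tA tB tC : ℕ → H}

theorem braid_eq' {Q : Type*} [Group Q] {x y : Q} (h1 : x * y * x = y * x * y)
    (h2 : Commute y x) : y = x := by
  have h3 : x * y * x = x * y * y := by rw [h1, h2.eq]
  exact (mul_left_cancel h3).symm

/-- A homomorphism of a perfect tree group of genus three with the same value at two of the `A`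
is trivial. -/
theorem kill_tree (T : TreeGrp 3 tA tB tC)
    (hgen : Subgroup.closure (Set.range (tt tA tB tC : Ix 3 → H)) = ⊤)
    (hperf : ∀ x : H, x ∈ commutator H) {Q : Type*} [Group Q] (σ : H →* Q)
    (h0 : σ (tA 1) = σ (tA 0)) (x : H) : σ x = 1 := by
  have cmm : ∀ {x y : H}, Commute x y → Commute (σ x) (σ y) := fun hc => hc.map σ
  have brd : ∀ {x y : H}, x * y * x = y * x * y → σ x * σ y * σ x = σ y * σ x * σ y := by
    intro x y hb
    rw [← map_mul, ← map_mul, ← map_mul, ← map_mul]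
    exact congrArg σ hb
  have b0 : σ (tB 0) = σ (tA 0) := by
    refine braid_eq' (brd (T.AB 0 (by omega))) ?_
    rw [← h0]
    exact cmm (T.cAB 1 0 (by omega) (by omega) (by omega)).symm
  have b1 : σ (tB 1) = σ (tA 0) := by
    rw [← h0]
    refine braid_eq' (brd (T.AB 1 (by omega))) ?_
    rw [h0]
    exact cmm (T.cAB 0 1 (by omega) (by omega) (by omega)).symm
  have c0 : σ (tC 0) = σ (tA 0) := by
    have h1 := braid_eq' (brd (T.BC 0 (by omega))) (by
        rw [b0]
        exact cmm (T.cAC 0 0 (by omega) (by omega)).symm)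
    rw [h1, b0]
  have c1 : σ (tC 1) = σ (tA 0) := by
    have h1 := braid_eq' (brd (T.BC 1 (by omega))) (by
        rw [b1]
        exact cmm (T.cAC 0 1 (by omega) (by omega)).symm)
    rw [h1, b1]
  have b2 : σ (tB 2) = σ (tA 0) := by
    have h1 := braid_eq' (brd (T.CB 1 (by omega))) (by
        rw [c1]
        exact cmm (T.cAB 0 2 (by omega) (by omega) (by omega)).symm)
    rw [h1, c1]
  have a2 : σ (tA 2) = σ (tA 0) := by
    have h1 := braid_eq' (brd (T.AB 2 (by omega))).symm (by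
        rw [b2]
        exact cmm (T.cAA 2 0 (by omega) (by omega)))
    rw [h1, b2]
  have all : ∀ i : Ix 3, σ (tt tA tB tC i) = σ (tA 0) := by
    rintro (i | i | i)
    · fin_cases i
      · rfl
      · exact h0
      · exact a2
    · fin_cases i
      · exact b0
      · exact b1
      · exact b2
    · fin_cases i
      · exact c0
      · exact c1
  exact comm_triv_of_eq hgen σ (fun i j => (all i).trans (all j).symm) x (hperf x)

end tree

section three

variable {Γ : Type w} [Group Γ] {A B C S : ℕ → Γ} {g lo : ℕ}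

/-- The twists of the block of three handles. -/
def wA (A B C : ℕ → Γ) (lo k : ℕ) : Bk A B C lo (lo + 3) :=
  if hk : k < 3 then ⟨A (lo + k), A_mem (by omega) (by omega)⟩ else 1

/-- The twists of the block of three handles. -/
def wB (A B C : ℕ → Γ) (lo k : ℕ) : Bk A B C lo (lo + 3) :=
  if hk : k < 3 then ⟨B (lo + k), B_mem (by omega) (by omega)⟩ else 1

/-- The twists of the block of three handles. -/
def wC (A B C : ℕ → Γ) (lo k : ℕ) : Bk A B C lo (lo + 3) :=
  if hk : k + 1 < 3 then ⟨C (lo + k), C_mem (by omega) (by omega)⟩ else 1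

theorem wA_lt {k : ℕ} (hk : k < 3) : (wA A B C lo k : Γ) = A (lo + k) := by
  rw [wA, dif_pos hk]

theorem wB_lt {k : ℕ} (hk : k < 3) : (wB A B C lo k : Γ) = B (lo + k) := by
  rw [wB, dif_pos hk]

theorem wC_lt {k : ℕ} (hk : k + 1 < 3) : (wC A B C lo k : Γ) = C (lo + k) := by
  rw [wC, dif_pos hk]

theorem tree_w (L : Lk g A B C S) (hm : lo + 3 ≤ g) :
    TreeGrp 3 (wA A B C lo) (wB A B C lo) (wC A B C lo) := by
  constructor
  · intro i hi
    apply Subtype.ext
    simp only [Subgroup.coe_mul, wA_lt hi, wB_lt hi]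
    exact L.brA _
  · intro i hi
    apply Subtype.ext
    simp only [Subgroup.coe_mul, wC_lt hi, wB_lt (show i < 3 by omega)]
    exact L.brC _ (by omega)
  · intro i hi
    apply Subtype.ext
    simp only [Subgroup.coe_mul, wC_lt hi, wB_lt hi]
    exact (L.brC' (lo + i) (by omega)).symm
  · intro i j hi hj
    apply Subtype.ext
    simp only [Subgroup.coe_mul, wA_lt hi, wA_lt hj]
    exact L.AA _ _
  · intro i j hi hj hij
    apply Subtype.ext
    simp only [Subgroup.coe_mul, wA_lt hi, wB_lt hj]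
    exact L.AB _ _ (by omega)
  · intro i j hi hj
    apply Subtype.ext
    simp only [Subgroup.coe_mul, wB_lt hi, wB_lt hj]
    exact L.BB _ _
  · intro i j hi hj
    apply Subtype.ext
    simp only [Subgroup.coe_mul, wA_lt hi, wC_lt hj]
    exact L.AC _ _
  · intro i j hi hj h1 h2
    apply Subtype.ext
    simp only [Subgroup.coe_mul, wB_lt hi, wC_lt hj]
    exact L.BC _ _ (by omega) (by omega)
  · intro i j hi hj
    apply Subtype.ext
    simp only [Subgroup.coe_mul, wC_lt hi, wC_lt hj]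
    exact L.CC _ _

theorem gen_w : Subgroup.closure
    (Set.range (tt (wA A B C lo) (wB A B C lo) (wC A B C lo) : Ix 3 → _)) = ⊤ := by
  apply closure_eq_top_of_val
  change _ = Subgroup.closure (gs A B C lo _)
  congr 1
  ext T
  constructor
  · rintro ⟨i | i | i, rfl⟩
    · refine Or.inl ⟨lo + i, by omega, by omega, ?_⟩
      change (wA A B C lo i : Γ) = _
      rw [wA_lt i.2]
    · refine Or.inr (Or.inl ⟨lo + i, by omega, by omega, ?_⟩)
      change (wB A B C lo i : Γ) = _
      rw [wB_lt i.2]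
    · refine Or.inr (Or.inr ⟨lo + i, by omega, by omega, ?_⟩)
      change (wC A B C lo i : Γ) = _
      rw [wC_lt (by omega)]
  · rintro (⟨k, h1, hk, rfl⟩ | ⟨k, h1, hk, rfl⟩ | ⟨k, h1, hk, rfl⟩)
    · refine ⟨Sum.inl ⟨k - lo, by omega⟩, ?_⟩
      change (wA A B C lo (k - lo) : Γ) = _
      rw [wA_lt (by omega), Nat.add_sub_cancel' h1]
    · refine ⟨Sum.inr (Sum.inl ⟨k - lo, by omega⟩), ?_⟩
      change (wB A B C lo (k - lo) : Γ) = _
      rw [wB_lt (by omega), Nat.add_sub_cancel' h1]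
    · refine ⟨Sum.inr (Sum.inr ⟨k - lo, by omega⟩), ?_⟩
      change (wC A B C lo (k - lo) : Γ) = _
      rw [wC_lt (by omega), Nat.add_sub_cancel' h1]

/-- **The block of three handles is perfect.** -/
theorem perf_w (L : Lk g A B C S) (R : Ln g A B C S) (hm : lo + 3 ≤ g)
    (x : Bk A B C lo (lo + 3)) : x ∈ commutator (Bk A B C lo (lo + 3)) := by
  have T := tree_w L hm
  let f : Bk A B C lo (lo + 3) →* Abelianization (Bk A B C lo (lo + 3)) := Abelianization.of
  obtain ⟨t, ht⟩ : ∃ t, t = f (wB A B C lo 0) := ⟨_, rfl⟩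
  have b0 : f (wB A B C lo 0) = t := ht.symm
  have a0 : f (wA A B C lo 0) = t := by rw [braid_ab f (T.AB 0 (by omega)), b0]
  have c0 : f (wC A B C lo 0) = t := by rw [← braid_ab f (T.BC 0 (by omega)), b0]
  have b1 : f (wB A B C lo 1) = t := by rw [← braid_ab f (T.CB 0 (by omega)), c0]
  have a1 : f (wA A B C lo 1) = t := by rw [braid_ab f (T.AB 1 (by omega)), b1]
  have c1 : f (wC A B C lo 1) = t := by rw [← braid_ab f (T.BC 1 (by omega)), b1]
  have b2 : f (wB A B C lo 2) = t := by rw [← braid_ab f (T.CB 1 (by omega)), c1]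
  have a2 : f (wA A B C lo 2) = t := by rw [braid_ab f (T.AB 2 (by omega)), b2]
  -- the lantern relation
  obtain ⟨E, h0, h1, -, -⟩ := R.lan lo (by omega)
  have mS : S (lo + 1) ∈ Bk A B C lo (lo + 3) := S_mem L (by omega) (by omega) (by omega)
  let s1 : Bk A B C lo (lo + 3) := ⟨S (lo + 1), mS⟩
  let E' : Bk A B C lo (lo + 3) := (wA A B C lo 0 * wA A B C lo 1 * wA A B C lo 2)⁻¹ *
    (wC A B C lo 0 * ((wA A B C lo 1 * wB A B C lo 1) ^ 3 * wC A B C lo 1 *
      ((wA A B C lo 1 * wB A B C lo 1) ^ 3)⁻¹) * (s1⁻¹ * wC A B C lo 0 * s1))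
  have hE : (E' : Γ) = E := by
    have e1 : E = (A lo * A (lo + 1) * A (lo + 2))⁻¹ *
        (C lo * ((A (lo + 1) * B (lo + 1)) ^ 3 * C (lo + 1) *
          ((A (lo + 1) * B (lo + 1)) ^ 3)⁻¹) * ((S (lo + 1))⁻¹ * C lo * S (lo + 1))) := by
      rw [eq_inv_mul_iff_mul_eq]
      exact h0.symm
    rw [e1]
    simp only [E', s1, Subgroup.coe_mul, Subgroup.coe_inv, Subgroup.coe_pow,
      wA_lt (show (0 : ℕ) < 3 by omega), wA_lt (show (1 : ℕ) < 3 by omega),
      wA_lt (show (2 : ℕ) < 3 by omega), wB_lt (show (1 : ℕ) < 3 by omega),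
      wC_lt (show (0 : ℕ) + 1 < 3 by omega), wC_lt (show (1 : ℕ) + 1 < 3 by omega)]
    rfl
  have fE : f E' = t := by
    rw [← b0]
    apply braid_ab f
    apply Subtype.ext
    simp only [Subgroup.coe_mul, hE, wB_lt (show (0 : ℕ) < 3 by omega)]
    exact h1
  have e7 : ∀ y x : Bk A B C lo (lo + 3), f (y * x * y⁻¹) = f x := by
    intro y x
    rw [map_mul, map_mul, map_inv, mul_comm (f y), mul_inv_cancel_right]
  have e8 : ∀ y x : Bk A B C lo (lo + 3), f (y⁻¹ * x * y) = f x := by
    intro y x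
    rw [map_mul, map_mul, map_inv, mul_comm (f y)⁻¹, inv_mul_cancel_right]
  have t1 : t = 1 := by
    have h2 : t = (t * t * t)⁻¹ * (t * t * t) := by
      have h3 : f E' = (t * t * t)⁻¹ * (t * t * t) := by
        simp only [E']
        rw [map_mul, map_inv, map_mul, map_mul, a0, a1, a2, map_mul, map_mul, c0, e7, c1, e8, c0]
      rw [← h3, fE]
    rw [h2, inv_mul_cancel]
  have h2 : f.ker = ⊤ := by
    rw [eq_top_iff, ← gen_w, Subgroup.closure_le]
    rintro _ ⟨i | i | i, rfl⟩
    · change f (wA A B C lo i) = 1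
      fin_cases i
      · exact a0.trans t1
      · exact a1.trans t1
      · exact a2.trans t1
    · change f (wB A B C lo i) = 1
      fin_cases i
      · exact b0.trans t1
      · exact b1.trans t1
      · exact b2.trans t1
    · change f (wC A B C lo i) = 1
      fin_cases i
      · exact c0.trans t1
      · exact c1.trans t1
  have h3 : x ∈ f.ker := by
    rw [h2]
    exact Subgroup.mem_top x
  rwa [Abelianization.ker_of] at h3

theorem comm_w (L : Lk g A B C S) (R : Ln g A B C S) (hm : lo + 3 ≤ g) {x : Γ}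
    (hx : x ∈ Bk A B C lo (lo + 3)) :
    x ∈ ⁅Bk A B C lo (lo + 3), Bk A B C lo (lo + 3)⁆ := by
  rw [← map_comm_sub]
  exact ⟨⟨x, hx⟩, perf_w L R hm ⟨x, hx⟩, rfl⟩

/-- The blocks of two and of three handles. -/
theorem blk_all (L : Lk g A B C S) (R : Ln g A B C S) {n : ℕ} (hn : n = 2 ∨ n = 3)
    (hnm : lo + n ≤ g) (K : Type u) [Field K] [IsAlgClosed K] :
    MinDimC.{u, v, w} K (Bk A B C lo (lo + n)) (dn n) ∧
      ∀ x : commutator (Bk A B C lo (lo + n)),
        x ∈ commutator (commutator (Bk A B C lo (lo + n))) := by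
  rcases hn with rfl | rfl
  · refine ⟨?_, perf_sub (chain_perfect (gr_ch L hnm) gen_ch)⟩
    intro W _ _ _ σ hW
    exact chain_dim4 (gr_ch L hnm) gen_ch W σ hW
  · refine ⟨minDimC_of_minDim (minDim_tree K (tree_w L hnm) gen_w (perf_w L R hnm)), ?_⟩
    have h1 : commutator (Bk A B C lo (lo + 3)) = ⊤ := by
      rw [eq_top_iff]
      exact fun x _ => perf_w L R hnm x
    apply perf_sub
    rw [h1, ← commutator_def, h1]

end three

end Pool.MP_59b15d_al.H98P
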