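/-
The mixed degree bound in an abstract group with the relations of the standard generators.
-/
import Pool.Agent.H.MP_59b15d_al.h40d.Evu
import Pool.Agent.H.MP_59b15d_al.h95e.St4
import Pool.Agent.H.MP_59b15d_al.h98p.BkA

set_option autoImplicit false

namespace Pool.MP_59b15d_al.H98P

universe u v w

open Module Pool.MP_59b15d_al.H95E Pool.MP_59b15d_al.H93E Pool.MP_59b15d_al.H47E
  Pool.MP_59b15d_al.H11D Pool.MP_59b15d_al.H95P Pool.Agent.H.MP_59b15d_al.Lin
  Pool.Agent.H.MP_59b15d_al.H52E
open scoped commutatorElement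

variable {Γ : Type w} [Group Γ] {A B C S : ℕ → Γ} {g : ℕ}

/-- **Degree bound** with `t` blocks of two handles followed by `s` blocks of three handles. -/
theorem deg_mixedA (L : Lk g A B C S) (R : Ln g A B C S) {F : Type u} [Field F] {t s : ℕ}
    (hm : 2 * t + 3 * s ≤ g) {V : Type v} [AddCommGroup V] [Module F V] [FiniteDimensional F V]
    (ρ : Γ →* Module.End F V) (hdim : finrank F V < 4 ^ t * 6 ^ s) (x : ℕ → Γ)
    (hx : ∀ k, k < t + s → x k ∈
      ⁅Bk A B C (lb t k) (lb t k + nb t k), Bk A B C (lb t k) (lb t k + nb t k)⁆) :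
    ((List.range (t + s)).map fun k => ρ (x k) - 1).prod = 0 := by
  let G : Fin (t + s) → Type w := fun k => Bk A B C (lb t k) (lb t k + nb t k)
  let f : ∀ k : Fin (t + s), Bk A B C (lb t k) (lb t k + nb t k) →* Γ := fun k =>
    (Bk A B C (lb t k) (lb t k + nb t k)).subtype
  have hex : ∀ k : Fin (t + s),
      ∃ y ∈ commutator (Bk A B C (lb t k) (lb t k + nb t k)), f k y = x k := by
    intro k
    have h1 := hx k k.2
    rw [← map_comm_sub] at h1
    exact h1
  choose y hy hyx using hex
  have hblk := fun k : Fin (t + s) => blk_all.{u, max v u, w} (lo := lb t k) L R (nb_or t k)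
    ((lb_le k.2).trans hm) (AlgebraicClosure F)
  have h1 := prodC_zero (AlgebraicClosure F) ρ (fun k => (hblk k).1) (fun k => (hblk k).2) f (by
      intro i j hij z w
      have hij' : (i : ℕ) ≠ j := fun h => hij (Fin.ext h)
      rcases Nat.lt_or_gt_of_ne hij' with hlt | hlt
      · exact Bk_comm L (lb_lt hlt) z.2 w.2
      · exact (Bk_comm L (lb_lt hlt) w.2 z.2).symm) (by
      rw [Fin.prod_univ_add]
      have e1 : ∀ i : Fin t, dn (nb t (Fin.castAdd s i : Fin (t + s))) = 4 := by
        intro i
        rw [Fin.val_castAdd, nb, if_pos i.2]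
        rfl
      have e2 : ∀ i : Fin s, dn (nb t (Fin.natAdd t i : Fin (t + s))) = 6 := by
        intro i
        rw [Fin.val_natAdd, nb, if_neg (by omega)]
        rfl
      simp only [e1, e2, Finset.prod_const, Finset.card_univ, Fintype.card_fin]
      exact hdim) y hy
  rw [List.ofFn_eq_map] at h1
  rw [← h1, ← List.map_coe_finRange_eq_range, List.map_map]
  congr 1
  refine List.map_congr_left fun k _ => ?_
  rw [Function.comp_apply, hyx k]

section repl

variable {F : Type u} [Field F] {V : Type v} [AddCommGroup V] [Module F V]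

/-- Let `P` and `Q` commute with the block of three handles. If `P (x - 1) Q = 0` for the
commutators of the block of two handles, then `P (x - 1) Q = 0` for all `x` in the block of three
handles. -/
theorem repl_stepA (L : Lk g A B C S) (R : Ln g A B C S) (ρ : Γ →* Module.End F V) {lo : ℕ}
    (hlo : lo + 3 ≤ g) (P Q : Module.End F V)
    (hP : ∀ x ∈ Bk A B C lo (lo + 3), Commute P (ρ x))
    (hQ : ∀ x ∈ Bk A B C lo (lo + 3), Commute Q (ρ x))
    (h0 : ∀ x ∈ ⁅Bk A B C lo (lo + 2), Bk A B C lo (lo + 2)⁆, P * (ρ x - 1) * Q = 0) (x : Γ)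
    (hx : x ∈ Bk A B C lo (lo + 3)) : P * (ρ x - 1) * Q = 0 := by
  let ι : Bk A B C lo (lo + 3) →* Γ := (Bk A B C lo (lo + 3)).subtype
  let N : Subgroup (Bk A B C lo (lo + 3)) :=
    { carrier := {y | P * (ρ (ι y) - 1) * Q = 0}
      mul_mem' := by
        intro y z hy hz
        have hy' : P * (ρ (ι y) - 1) * Q = 0 := hy
        have hz' : P * (ρ (ι z) - 1) * Q = 0 := hz
        change P * (ρ (ι (y * z)) - 1) * Q = 0
        have e1 : P * (ρ (ι (y * z)) - 1) * Q =
            P * ρ (ι y) * (ρ (ι z) - 1) * Q + P * (ρ (ι y) - 1) * Q := by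
          rw [map_mul, map_mul]
          noncomm_ring
        rw [e1, hy', (hP (ι y) y.2).eq, mul_assoc (ρ (ι y)), mul_assoc (ρ (ι y)), hz', mul_zero,
          add_zero]
      one_mem' := by
        change P * (ρ (ι 1) - 1) * Q = 0
        rw [map_one, map_one, sub_self, mul_zero, zero_mul]
      inv_mem' := by
        intro y hy
        have hy' : P * (ρ (ι y) - 1) * Q = 0 := hy
        change P * (ρ (ι y⁻¹) - 1) * Q = 0
        have e0 : ρ (ι y⁻¹) * ρ (ι y) = 1 := by
          rw [← map_mul, ← map_mul, inv_mul_cancel, map_one, map_one]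
        have e1 : ρ (ι y⁻¹) - 1 = -(ρ (ι y⁻¹) * (ρ (ι y) - 1)) := by
          rw [mul_sub, e0, mul_one, neg_sub]
        rw [e1, mul_neg, neg_mul, ← mul_assoc, (hP (ι y⁻¹) y⁻¹.2).eq, mul_assoc (ρ (ι y⁻¹)),
          mul_assoc (ρ (ι y⁻¹)), hy', mul_zero, neg_zero] }
  have hN : N.Normal := by
    constructor
    intro y hy z
    have hy' : P * (ρ (ι y) - 1) * Q = 0 := hy
    change P * (ρ (ι (z * y * z⁻¹)) - 1) * Q = 0
    have e0 : ρ (ι z) * ρ (ι z⁻¹) = 1 := by
      rw [← map_mul, ← map_mul, mul_inv_cancel, map_one, map_one]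
    have e1 : ρ (ι (z * y * z⁻¹)) - 1 = ρ (ι z) * (ρ (ι y) - 1) * ρ (ι z⁻¹) := by
      rw [map_mul, map_mul, map_mul, map_mul, mul_sub, sub_mul, mul_one, e0]
    calc P * (ρ (ι (z * y * z⁻¹)) - 1) * Q
        = (P * ρ (ι z)) * (ρ (ι y) - 1) * (ρ (ι z⁻¹) * Q) := by
          rw [e1]
          noncomm_ring
      _ = ρ (ι z) * (P * (ρ (ι y) - 1) * Q) * ρ (ι z⁻¹) := by
          rw [(hP (ι z) z.2).eq, ← (hQ (ι z⁻¹) z⁻¹.2).eq]
          noncomm_ring
      _ = 0 := by rw [hy', mul_zero, zero_mul]
  have h1 := kill_tree (tree_w (lo := lo) L hlo) gen_w (perf_w L R hlo) (QuotientGroup.mk' N) (by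
    rw [QuotientGroup.mk'_apply, QuotientGroup.mk'_apply, QuotientGroup.eq]
    change P * (ρ (ι (_⁻¹ * _)) - 1) * Q = 0
    apply h0
    have e2 : ι ((wA A B C lo 1)⁻¹ * wA A B C lo 0) = (A (lo + 1))⁻¹ * A lo := by
      rw [map_mul, map_inv]
      change (wA A B C lo 1 : Γ)⁻¹ * (wA A B C lo 0 : Γ) = _
      rw [wA_lt (by omega), wA_lt (by omega)]
      rfl
    rw [e2]
    exact quot_mem L (by omega)) ⟨x, hx⟩
  rw [QuotientGroup.mk'_apply, QuotientGroup.eq_one_iff] at h1
  exact h1

/-- The product of the operators `ρ (y k) - 1`. -/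
def prA (ρ : Γ →* Module.End F V) (y : ℕ → Γ) (lo n : ℕ) : Module.End F V :=
  ((List.range n).map fun k => ρ (y (lo + k)) - 1).prod

lemma prA_comm (ρ : Γ →* Module.End F V) {y : ℕ → Γ} {lo n : ℕ} {x : Γ}
    (hc : ∀ k, k < n → Commute (y (lo + k)) x) : Commute (prA ρ y lo n) (ρ x) := by
  refine (Commute.list_prod_left _ _ ?_)
  intro A hA
  obtain ⟨k, hk, rfl⟩ := List.mem_map.1 hA
  rw [List.mem_range] at hk
  exact ((hc k hk).map ρ).sub_left (Commute.one_left _)

lemma prA_split (ρ : Γ →* Module.End F V) (y : ℕ → Γ) (j l : ℕ) :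
    prA ρ y 0 (j + (1 + l)) = prA ρ y 0 j * (ρ (y j) - 1) * prA ρ y (j + 1) l := by
  rw [prA, List.range_add, List.map_append, List.prod_append, List.range_add, List.map_append,
    List.map_append, List.prod_append, ← mul_assoc]
  congr 1
  · simp [prA]
  · rw [prA, List.map_map, List.map_map]
    congr 2
    funext k
    simp only [Function.comp_apply]
    rw [show 0 + (j + (1 + k)) = j + 1 + k by omega]

/-- The elements after `t - j` replacements. -/
def yA (A : ℕ → Γ) (t : ℕ) (x : ℕ → Γ) (j k : ℕ) : Γ :=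
  if k < j then x k else if k < t then A (2 * k + 2) else A (2 * t + 3 * (k - t) + 1)

variable [FiniteDimensional F V]

theorem repl_allA (L : Lk g A B C S) (R : Ln g A B C S) (ρ : Γ →* Module.End F V) {t s : ℕ}
    (hs : 1 ≤ s) (hm : 2 * t + 3 * s ≤ g) (hdim : finrank F V < 4 ^ t * 6 ^ s) :
    ∀ i j, j + i = t → ∀ x : ℕ → Γ,
      (∀ k, k < j → x k ∈ ⁅Bk A B C (2 * k) (2 * k + 2), Bk A B C (2 * k) (2 * k + 2)⁆) →
      prA ρ (yA A t x j) 0 (t + s) = 0 := by
  intro i
  induction i with
  | zero =>
    rintro j hj x hx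
    rw [add_zero] at hj
    subst hj
    rw [prA]
    simp only [zero_add]
    refine deg_mixedA L R hm ρ hdim (yA A j x j) ?_
    intro k hk
    by_cases hkj : k < j
    · rw [yA, if_pos hkj, lb, if_pos hkj, nb, if_pos hkj]
      exact hx k hkj
    · rw [yA, if_neg hkj, if_neg hkj, lb, if_neg hkj, nb, if_neg hkj]
      exact comm_w L R (by omega) (A_mem (by omega) (by omega))
  | succ i ih =>
    intro j hj x hx
    obtain ⟨l, hl⟩ : ∃ l, t + s = j + (1 + l) := ⟨t + s - j - 1, by omega⟩
    have hxm : ∀ k, k < j → x k ∈ Bk A B C (2 * k) (2 * k + 2) := by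
      intro k hk
      have h1 : ⁅Bk A B C (2 * k) (2 * k + 2), Bk A B C (2 * k) (2 * k + 2)⁆ ≤
          Bk A B C (2 * k) (2 * k + 2) := by
        rw [Subgroup.commutator_le]
        intro y hy z hz
        exact Subgroup.mul_mem _ (Subgroup.mul_mem _ (Subgroup.mul_mem _ hy hz)
          (Subgroup.inv_mem _ hy)) (Subgroup.inv_mem _ hz)
      exact h1 (hx k hk)
    -- the elements on the left and on the right commute with the block
    have hP : ∀ z ∈ Bk A B C (2 * j) (2 * j + 3), Commute (prA ρ (yA A t x j) 0 j) (ρ z) := by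
      intro z hz
      refine prA_comm ρ fun k hk => ?_
      rw [zero_add, yA, if_pos hk]
      exact Bk_comm L (show 2 * k + 2 ≤ 2 * j by omega) (hxm k hk) hz
    have hQ : ∀ z ∈ Bk A B C (2 * j) (2 * j + 3),
        Commute (prA ρ (yA A t x j) (j + 1) l) (ρ z) := by
      intro z hz
      refine prA_comm ρ fun k hk => ?_
      rw [yA, if_neg (by omega)]
      split_ifs with h1
      · exact (Bk_comm L (show 2 * j + 3 ≤ 2 * (j + 1 + k) + 2 by omega) hz
          (A_mem (le_refl (2 * (j + 1 + k) + 2)) (Nat.lt_succ_self _))).symm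
      · exact (Bk_comm L (show 2 * j + 3 ≤ 2 * t + 3 * (j + 1 + k - t) + 1 by omega) hz
          (A_mem (le_refl (2 * t + 3 * (j + 1 + k - t) + 1)) (Nat.lt_succ_self _))).symm
    have h0 : ∀ z ∈ ⁅Bk A B C (2 * j) (2 * j + 2), Bk A B C (2 * j) (2 * j + 2)⁆,
        prA ρ (yA A t x j) 0 j * (ρ z - 1) * prA ρ (yA A t x j) (j + 1) l = 0 := by
      intro z hz
      have h1 := ih (j + 1) (by omega) (Function.update x j z) (by
        intro k hk
        by_cases hkj : k = j
        · subst hkj
          rw [Function.update_self]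
          exact hz
        · rw [Function.update_of_ne hkj]
          exact hx k (by omega))
      rw [hl, prA_split] at h1
      have e1 : prA ρ (yA A t (Function.update x j z) (j + 1)) 0 j = prA ρ (yA A t x j) 0 j := by
        rw [prA, prA]
        congr 1
        refine List.map_congr_left fun k hk => ?_
        rw [List.mem_range] at hk
        have a1 : yA A t (Function.update x j z) (j + 1) k = x k := by
          rw [yA, if_pos (by omega), Function.update_of_ne (by omega)]
        have a2 : yA A t x j k = x k := by rw [yA, if_pos hk]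
        rw [zero_add, a1, a2]
      have e2 : yA A t (Function.update x j z) (j + 1) j = z := by
        rw [yA, if_pos (by omega), Function.update_self]
      have e3 : prA ρ (yA A t (Function.update x j z) (j + 1)) (j + 1) l =
          prA ρ (yA A t x j) (j + 1) l := by
        rw [prA, prA]
        congr 1
        refine List.map_congr_left fun k hk => ?_
        have a1 : yA A t (Function.update x j z) (j + 1) (j + 1 + k) =
            yA A t x j (j + 1 + k) := by
          rw [yA, if_neg (show ¬ j + 1 + k < j + 1 by omega), yA,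
            if_neg (show ¬ j + 1 + k < j by omega)]
        rw [a1]
      rwa [e1, e2, e3] at h1
    have h2 := repl_stepA L R ρ (lo := 2 * j) (by omega) _ _ hP hQ h0 (A (2 * j + 2))
      (A_mem (by omega) (by omega))
    rw [hl, prA_split]
    have e4 : yA A t x j j = A (2 * j + 2) := by
      rw [yA, if_neg (by omega), if_pos (by omega)]
    rw [e4]
    exact h2

/-- **The mixed degree bound.** -/
theorem mixedA (L : Lk g A B C S) (R : Ln g A B C S) (ρ : Γ →* Module.End F V) {t s : ℕ}
    (hs : 1 ≤ s) (hm : 2 * t + 3 * s ≤ g) (hdim : finrank F V < 4 ^ t * 6 ^ s) :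
    np ρ ((List.range (t + s)).map A) = 0 := by
  have h1 := repl_allA L R ρ hs hm hdim t 0 (by omega) (fun _ => 1) (fun k hk => by omega)
  let q : ℕ → ℕ := fun k => if k < t then 2 * k + 2 else 2 * t + 3 * (k - t) + 1
  have hq : ∀ k, yA A t (fun _ => 1) 0 k = A (q k) := by
    intro k
    simp only [yA, q, Nat.not_lt_zero, if_false]
    split_ifs <;> rfl
  have hqm : ∀ k, k < t + s → q k < g := by
    intro k hk
    simp only [q]
    split_ifs <;> omega
  have hqi : StrictMono q := by
    intro k l hkl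
    simp only [q]
    split_ifs <;> omega
  have h2 : np ρ (((List.range (t + s)).map q).map A) = 0 := by
    rw [← h1, prA, np, List.map_map, List.map_map]
    congr 1
    refine List.map_congr_left fun k _ => ?_
    rw [zero_add, hq]
    rfl
  have h3 := Pool.MP_59b15d_al.H95E.np_all L (ρ := ρ)
    (I := (List.range (t + s)).map q) (I' := List.range (t + s))
    (List.Nodup.map hqi.injective List.nodup_range) (by
      intro i hi
      obtain ⟨k, hk, rfl⟩ := List.mem_map.1 hi
      exact hqm k (List.mem_range.1 hk)) (fun v => by rw [h2]; rfl) List.nodup_range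
    (fun i hi => by
      rw [List.mem_range] at hi
      omega) (by rw [List.length_map])
  ext v
  exact h3 v

end repl

end Pool.MP_59b15d_al.H98P
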