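/-
The front end in an abstract group: for the dimension bounds `2 ^ (g - 1)` and `6 ^ r` the product
of `k + 1` of the operators `A i - 1`, `2 k + 4 ≤ g`, vanishes.
-/
import Pool.Agent.H.MP_59b15d_al.h98p.MixA
import Pool.Agent.H.MP_59b15d_al.h95p.CoreA
import Pool.Agent.H.MP_59b15d_al.h11d.Indep3
import Pool.Agent.H.MP_59b15d_al.h52e.Front

set_option autoImplicit false

namespace Pool.MP_59b15d_al.H98P

universe u v w

open Module Pool.MP_59b15d_al.H95E Pool.MP_59b15d_al.H93E Pool.MP_59b15d_al.H47E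
  Pool.MP_59b15d_al.H11D Pool.MP_59b15d_al.H95P Pool.Agent.H.MP_59b15d_al.Lin
  Pool.Agent.H.MP_59b15d_al.H52E Pool.MP_59b15d_al.H60E

variable {Γ : Type w} [Group Γ] {A B C S T : ℕ → Γ} {g : ℕ}
variable {F : Type u} [Field F] {V : Type v} [AddCommGroup V] [Module F V]
variable [FiniteDimensional F V]

/-- The degree for the bound `6 ^ r`. -/
theorem front_six (L : Lk g A B C S) (R : Ln g A B C S) (ρ : Γ →* Module.End F V) {r : ℕ}
    (hr : 2 ≤ r) (hrm : 3 * r ≤ g) (hdim : finrank F V < 6 ^ r) :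
    ∃ k, 2 * k + 4 ≤ g ∧ np ρ ((List.range (k + 1)).map A) = 0 := by
  obtain ⟨k, rfl⟩ : ∃ k, r = k + 1 := ⟨r - 1, by omega⟩
  have h1 := mixedA L R ρ (t := 0) (s := k + 1) (by omega) (by omega)
    (by rw [pow_zero, one_mul]; exact hdim)
  rw [Nat.zero_add] at h1
  exact ⟨k, by omega, h1⟩

/-- The degree for the bound `2 ^ (g - 1)`. -/
theorem front_two (L : Lk g A B C S) (R : Ln g A B C S) (hout : ∀ i, g ≤ i → A i = 1)
    (ρ : Γ →* Module.End F V) (hU : LemU ρ A B C S g)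
    (hEV : ∀ k ≤ g, np ρ ((List.range k).map A) ≠ 0 →
      ∀ m < k, ∀ W, Ex ρ A B C S g m W → W = ⊥)
    (hg : 6 ≤ g) (hdim : finrank F V < 2 ^ (g - 1)) :
    ∃ k, 2 * k + 4 ≤ g ∧ np ρ ((List.range (k + 1)).map A) = 0 := by
  rcases Nat.even_or_odd' g with ⟨u, hu | hu⟩
  · refine ⟨u - 2, by omega, ?_⟩
    have h1 := mixedA L R ρ (t := u - 3) (s := 2) (by omega) (by omega)
      (hdim.trans (by rw [hu]; exact pow_even (by omega)))
    rwa [show u - 3 + 2 = u - 2 + 1 by omega] at h1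
  · by_cases h2 : np ρ ((List.range (u - 1)).map A) = 0
    · refine ⟨u - 2, by omega, ?_⟩
      rwa [show u - 2 + 1 = u - 1 by omega]
    · exfalso
      have h1 := mixedA L R ρ (t := u - 1) (s := 1) le_rfl (by omega)
        (hdim.trans (by
          rw [show g - 1 = 2 * u by omega]; exact pow_odd (by omega)))
      have h3 := indep L R hout hU (k := u - 1) (by omega)
        (fun m hm => hEV (u - 1) (by omega) h2 m (by omega)) h1 h2
      obtain ⟨v, rfl⟩ : ∃ v, u = v + 3 := ⟨u - 3, by omega⟩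
      have h4 := choose_ge v
      have h5 : 2 ^ (g - 1) ≤ 2 ^ (v + 3 - 1) * g.choose (v + 3 - 1) := by
        rw [hu, show v + 3 - 1 = v + 2 by omega, show 2 * (v + 3) + 1 - 1 = (v + 2) + (v + 4) by omega,
          pow_add]
        exact Nat.mul_le_mul_left _ h4
      omega

/-- **Two consecutive bounding pairs**, for the bound `2 ^ (g - 1)`. -/
theorem pairs_two (L : Lk g A B C S) (R : Ln g A B C S)
    (P : ∀ q, 0 < q → q + 1 < g → Bp g A B C S q (T q)) (hout : ∀ i, g ≤ i → A i = 1)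
    (star : ∀ q, 0 < q → q + 1 < g → fa C S (q - 1) 1 ∈
      Subgroup.closure {C (q - 1), C q, A (q - 1), A q, A (q + 1), B q})
    (ρ : Γ →* Module.End F V) (hU : LemU ρ A B C S g) (hU' : LemU (du ρ) A B C S g)
    (hEV : ∀ k ≤ g, np ρ ((List.range k).map A) ≠ 0 →
      ∀ m < k, ∀ W, Ex ρ A B C S g m W → W = ⊥)
    (hEV' : ∀ k ≤ g, np (du ρ) ((List.range k).map A) ≠ 0 →
      ∀ m < k, ∀ W, Ex (du ρ) A B C S g m W → W = ⊥)
    (hg : 6 ≤ g) (hdim : finrank F V < 2 ^ (g - 1)) :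
    (∃ k, 2 * k + 4 ≤ g ∧ np ρ ((List.range (k + 1)).map A) = 0) ∧
    ∃ q, 0 < q ∧ q + 2 < g ∧ ρ (A q) = ρ (T q) ∧ ρ (A (q + 1)) = ρ (T (q + 1)) := by
  obtain ⟨k, hk, h0⟩ := front_two L R hout ρ hU hEV hg hdim
  exact ⟨⟨k, hk, h0⟩, core_abs L R P hout star hU hU' hEV hEV' hk h0⟩

/-- **Two consecutive bounding pairs**, for the bound `6 ^ r`. -/
theorem pairs_six (L : Lk g A B C S) (R : Ln g A B C S)
    (P : ∀ q, 0 < q → q + 1 < g → Bp g A B C S q (T q)) (hout : ∀ i, g ≤ i → A i = 1)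
    (star : ∀ q, 0 < q → q + 1 < g → fa C S (q - 1) 1 ∈
      Subgroup.closure {C (q - 1), C q, A (q - 1), A q, A (q + 1), B q})
    (ρ : Γ →* Module.End F V) (hU : LemU ρ A B C S g) (hU' : LemU (du ρ) A B C S g)
    (hEV : ∀ k ≤ g, np ρ ((List.range k).map A) ≠ 0 →
      ∀ m < k, ∀ W, Ex ρ A B C S g m W → W = ⊥)
    (hEV' : ∀ k ≤ g, np (du ρ) ((List.range k).map A) ≠ 0 →
      ∀ m < k, ∀ W, Ex (du ρ) A B C S g m W → W = ⊥)
    {r : ℕ} (hr : 2 ≤ r) (hrm : 3 * r ≤ g) (hdim : finrank F V < 6 ^ r) :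
    (∃ k, 2 * k + 4 ≤ g ∧ np ρ ((List.range (k + 1)).map A) = 0) ∧
    ∃ q, 0 < q ∧ q + 2 < g ∧ ρ (A q) = ρ (T q) ∧ ρ (A (q + 1)) = ρ (T (q + 1)) := by
  obtain ⟨k, hk, h0⟩ := front_six L R ρ hr hrm hdim
  exact ⟨⟨k, hk, h0⟩, core_abs L R P hout star hU hU' hEV hEV' hk h0⟩

end Pool.MP_59b15d_al.H98P
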