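/-
The twists act unipotently if the product of `r` of the operators `A i - 1` vanishes, `r + 2 ≤ g`,
in an abstract group with the relations of the standard generators.
-/
import Pool.Agent.H.MP_59b15d_al.h40d.Evu
import Pool.Agent.H.MP_59b15d_al.h78e.Tw
import Pool.Agent.H.MP_59b15d_al.h98p.BkA

set_option autoImplicit false

namespace Pool.MP_59b15d_al.H98P

universe u v w

open Module Pool.MP_59b15d_al.H95E Pool.MP_59b15d_al.H93E Pool.MP_59b15d_al.H47E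
  Pool.MP_59b15d_al.H11D Pool.MP_59b15d_al.H95P Pool.Agent.H.MP_59b15d_al.Lin
  Pool.Agent.H.MP_59b15d_al.H52E Pool.Agent.H.MP_59b15d_al.H78E

variable {Γ : Type w} [Group Γ] {A B C S : ℕ → Γ} {g : ℕ}

/-- The elements of the first block of three handles which commute with `A 0`. -/
def U0 (A B C : ℕ → Γ) : Subgroup Γ := Bk A B C 0 3 ⊓ Subgroup.centralizer {A 0}

theorem mem_U0 {x : Γ} (h1 : x ∈ Bk A B C 0 3) (h2 : Commute x (A 0)) : x ∈ U0 A B C :=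
  Subgroup.mem_inf.2 ⟨h1, Subgroup.mem_centralizer_singleton_iff.2 h2.eq⟩

theorem U0_comm (L : Lk g A B C S) {x : Γ} (hx : x ∈ U0 A B C) :
    Commute x (A 0) ∧ ∀ i, 3 ≤ i → Commute x (A i) := by
  obtain ⟨h1, h2⟩ := Subgroup.mem_inf.1 hx
  exact ⟨Subgroup.mem_centralizer_singleton_iff.1 h2, fun i hi =>
    Bk_comm L hi h1 (A_mem (lo := i) (hi := i + 1) le_rfl (Nat.lt_succ_self _))⟩

/-- Conjugate to `A 2` by an element of `U0`. -/
def Cj (A B C : ℕ → Γ) (x : Γ) : Prop := ∃ u ∈ U0 A B C, x = u * A 2 * u⁻¹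

theorem Cj.conj {x y : Γ} (hx : Cj A B C x) (hy : y ∈ U0 A B C) : Cj A B C (y * x * y⁻¹) := by
  obtain ⟨u, hu, rfl⟩ := hx
  exact ⟨y * u, mul_mem hy hu, by group⟩

theorem Cj.braid {x y : Γ} (hx : Cj A B C x) (h1 : x ∈ U0 A B C) (h2 : y ∈ U0 A B C)
    (h : x * y * x = y * x * y) : Cj A B C y := by
  have e : y = (x * y) * x * (x * y)⁻¹ := by
    rw [eq_mul_inv_iff_mul_eq, h, ← mul_assoc]
  rw [e]
  exact hx.conj (mul_mem h1 h2)

/-- The lantern relation in the form which is needed. -/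
theorem lanA (L : Lk g A B C S) (R : Ln g A B C S) (hg : 3 ≤ g) :
    A 0 ∈ Subgroup.closure {x | ∃ u : Γ, Commute u (A 0) ∧ (∀ i, 3 ≤ i → Commute u (A i)) ∧
      x = u * A 2 * u⁻¹} := by
  have a1 : A 1 ∈ U0 A B C := mem_U0 (A_mem (by omega) (by omega)) (L.AA _ _)
  have a2 : A 2 ∈ U0 A B C := mem_U0 (A_mem (by omega) (by omega)) (L.AA _ _)
  have b1 : B 1 ∈ U0 A B C := mem_U0 (B_mem (by omega) (by omega)) (L.AB 0 1 (by omega)).symm
  have b2 : B 2 ∈ U0 A B C := mem_U0 (B_mem (by omega) (by omega)) (L.AB 0 2 (by omega)).symm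
  have c0 : C 0 ∈ U0 A B C := mem_U0 (C_mem (by omega) (by omega)) (L.AC 0 0).symm
  have c1 : C 1 ∈ U0 A B C := mem_U0 (C_mem (by omega) (by omega)) (L.AC 0 1).symm
  have s1 : S 1 ∈ U0 A B C := mem_U0 (S_mem L (by omega) (by omega) (by omega))
    (L.SAo 1 0 (by omega) (by omega))
  have jA2 : Cj A B C (A 2) := ⟨1, one_mem _, by group⟩
  have jB2 : Cj A B C (B 2) := jA2.braid a2 b2 (L.brA 2)
  have jC1 : Cj A B C (C 1) := jB2.braid b2 c1 (L.brC' 1 (by omega))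
  have jB1 : Cj A B C (B 1) := jC1.braid c1 b1 (L.brC 1 (by omega)).symm
  have jA1 : Cj A B C (A 1) := jB1.braid b1 a1 (L.brA 1).symm
  have jC0 : Cj A B C (C 0) := jB1.braid b1 c0 (L.brC' 0 (by omega))
  have io1 : (A 1 * B 1) ^ 3 ∈ U0 A B C := pow_mem (mul_mem a1 b1) 3
  have jI : Cj A B C ((A 1 * B 1) ^ 3 * C 1 * ((A 1 * B 1) ^ 3)⁻¹) := jC1.conj io1
  have jF : Cj A B C ((S 1)⁻¹ * C 0 * S 1) := by
    have h1 := jC0.conj (inv_mem s1)
    rwa [inv_inv] at h1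
  obtain ⟨E, h0, -, h1, -⟩ := R.lan 0 (by omega)
  have h0' : C 0 * ((A 1 * B 1) ^ 3 * C 1 * ((A 1 * B 1) ^ 3)⁻¹) * ((S 1)⁻¹ * C 0 * S 1) =
      A 0 * A 1 * A 2 * E := h0
  have e1 : E = (A 0 * A 1 * A 2)⁻¹ *
      (C 0 * ((A 1 * B 1) ^ 3 * C 1 * ((A 1 * B 1) ^ 3)⁻¹) * ((S 1)⁻¹ * C 0 * S 1)) := by
    rw [h0', inv_mul_cancel_left]
  have a0 : A 0 ∈ U0 A B C := mem_U0 (A_mem (by omega) (by omega)) (L.AA _ _)
  have hE : E ∈ U0 A B C := by
    rw [e1]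
    exact mul_mem (inv_mem (mul_mem (mul_mem a0 a1) a2)) (mul_mem (mul_mem c0
      (mul_mem (mul_mem io1 c1) (inv_mem io1))) (mul_mem (mul_mem (inv_mem s1) c0) s1))
  have jE : Cj A B C E := jB1.braid b1 hE h1.symm
  have hcl : ∀ {x : Γ}, Cj A B C x → x ∈ Subgroup.closure
      {x | ∃ u : Γ, Commute u (A 0) ∧ (∀ i, 3 ≤ i → Commute u (A i)) ∧ x = u * A 2 * u⁻¹} := by
    rintro _ ⟨u, hu, rfl⟩
    exact Subgroup.subset_closure ⟨u, (U0_comm L hu).1, (U0_comm L hu).2, rfl⟩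
  have e2 : A 0 = (C 0 * ((A 1 * B 1) ^ 3 * C 1 * ((A 1 * B 1) ^ 3)⁻¹) *
      ((S 1)⁻¹ * C 0 * S 1)) * (A 1 * A 2 * E)⁻¹ := by
    rw [h0', eq_mul_inv_iff_mul_eq]
    simp only [mul_assoc]
  have h2 := mul_mem (mul_mem (mul_mem (hcl jC0) (hcl jI)) (hcl jF))
    (inv_mem (mul_mem (mul_mem (hcl jA1) (hcl jA2)) (hcl jE)))
  rwa [← e2] at h2

/-- Shifting the handles `p, …, p + n`. -/
theorem shiftA (L : Lk g A B C S) (n : ℕ) : ∀ p, p + n + 1 < g →
    ∃ c : Γ, (∀ j, j < p → c * A j * c⁻¹ = A j) ∧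
      ∀ j, p ≤ j → j ≤ p + n → c * A j * c⁻¹ = A (j + 1) := by
  have hS : ∀ p, p + 1 < g → (∀ j, j < p ∨ p + 1 < j → S p * A j * (S p)⁻¹ = A j) ∧
      S p * A p * (S p)⁻¹ = A (p + 1) := by
    intro p hp
    refine ⟨fun j hj => ?_, ?_⟩
    · rw [(L.SAo p j (by omega) (by omega)).eq, mul_inv_cancel_right]
    · rw [L.SA p hp, mul_inv_cancel_right]
  have hcj : ∀ c d x : Γ, c * d * x * (c * d)⁻¹ = c * (d * x * d⁻¹) * c⁻¹ := by
    intro c d x
    group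
  induction n with
  | zero =>
    intro p hp
    refine ⟨S p, fun j hj => (hS p (by omega)).1 j (Or.inl hj), fun j h1 h2 => ?_⟩
    obtain rfl : j = p := by omega
    exact (hS j (by omega)).2
  | succ n ih =>
    intro p hp
    obtain ⟨d, d1, d2⟩ := ih (p + 1) (by omega)
    have h1 := hS p (by omega)
    refine ⟨S p * d, fun j hj => ?_, fun j hj hj' => ?_⟩
    · rw [hcj, d1 j (by omega), h1.1 j (Or.inl hj)]
    · rcases Nat.lt_or_ge p j with h2 | h2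
      · rw [hcj, d2 j h2 (by omega), h1.1 (j + 1) (Or.inr (by omega))]
      · obtain rfl : j = p := by omega
        rw [hcj, d1 j (by omega), h1.2]

/-- Moving the handles `0, …, r - 1` to the handles `0, 3, …, r + 1`. -/
theorem gapA (L : Lk g A B C S) (r : ℕ) (hr : 0 < r) (hrm : r + 2 ≤ g) :
    ∃ c : Γ, c * A 0 * c⁻¹ = A 0 ∧ ∀ i, i < r - 1 → c * A (i + 1) * c⁻¹ = A (i + 3) := by
  rcases Nat.lt_or_ge r 2 with h1 | h1
  · exact ⟨1, by group, fun i hi => by omega⟩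
  · obtain ⟨c, c1, c2⟩ := shiftA L (r - 2) 1 (by omega)
    obtain ⟨d, d1, d2⟩ := shiftA L (r - 2) 2 (by omega)
    have hcj : ∀ c d x : Γ, c * d * x * (c * d)⁻¹ = c * (d * x * d⁻¹) * c⁻¹ := by
      intro c d x
      group
    refine ⟨d * c, ?_, fun i hi => ?_⟩
    · rw [hcj, c1 0 (by omega), d1 0 (by omega)]
    · rw [hcj, c2 (i + 1) (by omega) (by omega), d2 (i + 1 + 1) (by omega) (by omega)]

/-- **The twists act unipotently.** -/
theorem unipA (L : Lk g A B C S) (R : Ln g A B C S) {F : Type u} [Field F] {r : ℕ} (hr : 0 < r)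
    (hrm : r + 2 ≤ g) {V : Type v} [AddCommGroup V] [Module F V] (ρ : Γ →* Module.End F V)
    (hd : np ρ ((List.range r).map A) = 0) : (ρ (A 0) - 1) ^ r = 0 := by
  have hd : PR ρ A 0 r = 0 := by
    rw [← hd, PR, np, List.map_map]
    rfl
  -- the start
  have h0 : (ρ (A 0) - 1) ^ 1 * PR ρ A 3 (r - 1) = 0 := by
    obtain ⟨c, c1, c2⟩ := gapA L r hr hrm
    have e1 : PR ρ A 0 (r - 1 + 1) = (ρ (A 0) - 1) * PR ρ A (0 + 1) (r - 1) :=
      PR_succ ρ A 0 (r - 1)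
    rw [Nat.sub_add_cancel hr, hd] at e1
    have e2 := PR_conj ρ A 1 3 (r - 1) c c2
    have e3 := conj_sub ρ c (A 0)
    rw [c1] at e3
    rw [pow_one, e2, e3]
    calc ρ c * (ρ (A 0) - 1) * ρ c⁻¹ * (ρ c * PR ρ A 1 (r - 1) * ρ c⁻¹)
        = ρ c * ((ρ (A 0) - 1) * (ρ c⁻¹ * ρ c) * PR ρ A 1 (r - 1)) * ρ c⁻¹ := by
          noncomm_ring
      _ = 0 := by rw [rho_inv_mul, mul_one, ← Nat.zero_add 1, ← e1, mul_zero, zero_mul]
  -- the induction
  have key : ∀ s, s ≤ r - 1 → (ρ (A 0) - 1) ^ (s + 1) * PR ρ A 3 (r - 1 - s) = 0 := by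
    intro s
    induction s with
    | zero => intro _; exact h0
    | succ s ih =>
      intro hs
      have h1 := ih (by omega)
      have e1 : r - 1 - s = (r - 1 - (s + 1)) + 1 := by omega
      rw [e1] at h1
      obtain ⟨c, c1, c2⟩ := shiftA L (r - 1 - (s + 1)) 2 (by omega)
      exact tw_step ρ A (s + 1) (r - 1 - (s + 1)) (lanA L R (by omega))
        (L.AA 2 0) c (c1 0 (by omega)) (fun i hi => c2 (i + 2) (by omega) (by omega)) h1
  have h2 := key (r - 1) le_rfl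
  rw [Nat.sub_self, Nat.sub_add_cancel hr] at h2
  simpa [PR] using h2

end Pool.MP_59b15d_al.H98P
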